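import Pool.Agent.R761.GN.Top
import Pool.Agent.Results.MP_b48dd4_gt.FlatVertices

set_option autoImplicit false

/-!
# Gromov's question on planar geodesic nets: a positive answer

The number of balanced vertices of a geodesic net in the Euclidean plane is bounded by a function
of the number `n` of unbalanced vertices and of (an upper bound for) the total imbalance `I`, namely
by `(n + 1) * (c * (I + 1)) ^ (c * (I + 1))` for a constant `c`.

Idea. Sweep the plane by lines. At a balanced vertex `v` let `J v` be the sum of the sines of the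
angles between the incoming edges and between the outgoing edges. The sum of all `J v` is at most
`3 * I ^ 2` (`Pool.Agent.W644.GN.Cfg.sum_J_le`), more generally it is bounded by the product of the
total imbalances in two directions. Between boundedly many exceptional vertices the net consists of
bundles of boundedly many nearly parallel strands (`Pool.Agent.R761.GN.sweep_count`). In a bundle
of `p` strands the spread of the directions is conserved up to a factor `2 p`, and after a shear the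
same inequality bounds the sum of `J v` by a multiple of the spread; so after removing boundedly
many vertices the strands can be separated by their direction into two bundles which do not
interact, and induction on `p` applies (`Pool.Agent.R761.GN.main`).
-/

noncomputable section
open scoped Classical

namespace Pool.Agent.Results.MP_b48dd4_gt.GromovBound

/-- A geodesic net in the Euclidean plane (identified with the complex numbers): a finite graph
whose vertices are points of the plane and whose edges are straight segments of weight one. -/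
structure GeodesicNet where
  /-- the vertices -/
  V : Finset ℂ
  /-- `Adj a b` means that the segment `ab` is an edge -/
  Adj : ℂ → ℂ → Prop
  symm : ∀ a b, Adj a b → Adj b a
  /-- edges join two distinct vertices -/
  edge_ends : ∀ a b, Adj a b → a ∈ V ∧ b ∈ V ∧ a ≠ b
  /-- two distinct edges meet only at a common endpoint -/
  edges_meet : ∀ a b c d, Adj a b → Adj c d → s(a, b) ≠ s(c, d) →
    ∀ z ∈ segment ℝ a b, z ∈ segment ℝ c d → (z = a ∨ z = b) ∧ (z = c ∨ z = d)
  /-- no vertex lies in the interior of an edge -/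
  no_vertex_inside : ∀ a b, Adj a b → ∀ c ∈ V, c ∉ openSegment ℝ a b

namespace GeodesicNet

variable (G : GeodesicNet)

/-- the neighbours of `v` -/
def neighbors (v : ℂ) : Finset ℂ := G.V.filter (fun w => G.Adj v w)

/-- the imbalance vector: the sum of the unit vectors along the edges at `v` -/
def imb (v : ℂ) : ℂ := ∑ w ∈ G.neighbors v, (w - v) / (‖w - v‖ : ℂ)

/-- the total imbalance (balanced vertices contribute zero) -/
def totalImbalance : ℝ := ∑ v ∈ G.V, ‖G.imb v‖

/-- the balanced vertices -/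
def balanced : Finset ℂ := G.V.filter (fun v => G.imb v = 0)

/-- the unbalanced vertices -/
def unbalanced : Finset ℂ := G.V.filter (fun v => G.imb v ≠ 0)

/-- the convention: every vertex has degree at least one, and every balanced vertex has degree at
least three -/
def Proper : Prop := (∀ v ∈ G.V, 1 ≤ (G.neighbors v).card) ∧
  ∀ v ∈ G.V, G.imb v = 0 → 3 ≤ (G.neighbors v).card

/-- the same net, as an object of the starting file -/
def old : FlatVertices.GeodesicNet := ⟨G.V, G.Adj, G.symm, G.edge_ends, G.edges_meet,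
  G.no_vertex_inside⟩

end GeodesicNet

open Pool.Agent.W644.GN Pool.Agent.R761.GN FlatVertices

theorem exists_generic2 (V : Finset ℂ) : ∃ ζ : ℂ, ‖ζ‖ = 1 ∧
    (∀ a ∈ V, ∀ b ∈ V, (ζ * a).im = (ζ * b).im → a = b) ∧
    ∀ a ∈ V, ∀ b ∈ V, ((Complex.I * ζ) * a).im = ((Complex.I * ζ) * b).im → a = b := by
  have hfin : (⋃ p ∈ (V ×ˢ V : Finset (ℂ × ℂ)),
      {t : ℝ | p.1 ≠ p.2 ∧ ((p.1 - p.2).im + t * (p.1 - p.2).re = 0 ∨
        (p.1 - p.2).re - t * (p.1 - p.2).im = 0)}).Finite := by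
    refine Set.Finite.biUnion (Finset.finite_toSet _) (fun p _ => ?_)
    have h1 : {t : ℝ | p.1 ≠ p.2 ∧ (p.1 - p.2).im + t * (p.1 - p.2).re = 0}.Finite := by
      refine Set.Subsingleton.finite ?_
      rintro t ⟨hne, ht⟩ t' ⟨-, ht'⟩
      have h : (t - t') * (p.1 - p.2).re = 0 := by linear_combination ht - ht'
      rcases mul_eq_zero.1 h with h | h
      · linarith
      · exfalso
        apply hne
        rw [h] at ht
        have h2 : (p.1 - p.2).im = 0 := by linarith
        exact sub_eq_zero.1 (Complex.ext h h2)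
    have h2 : {t : ℝ | p.1 ≠ p.2 ∧ (p.1 - p.2).re - t * (p.1 - p.2).im = 0}.Finite := by
      refine Set.Subsingleton.finite ?_
      rintro t ⟨hne, ht⟩ t' ⟨-, ht'⟩
      have h : (t - t') * (p.1 - p.2).im = 0 := by linear_combination ht' - ht
      rcases mul_eq_zero.1 h with h | h
      · linarith
      · exfalso
        apply hne
        rw [h] at ht
        have h2 : (p.1 - p.2).re = 0 := by linarith
        exact sub_eq_zero.1 (Complex.ext h2 h)
    refine (h1.union h2).subset ?_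
    rintro t ⟨hne, h | h⟩
    · exact Or.inl ⟨hne, h⟩
    · exact Or.inr ⟨hne, h⟩
  obtain ⟨t, ht⟩ := hfin.infinite_compl.nonempty
  set z : ℂ := 1 + (t : ℂ) * Complex.I with hz
  have hz0 : z ≠ 0 := by
    intro h
    have := congrArg Complex.re h
    simp [hz] at this
  have hn : 0 < ‖z‖ := norm_pos_iff.2 hz0
  refine ⟨(((‖z‖⁻¹ : ℝ)) : ℂ) * z, ?_, ?_, ?_⟩
  · rw [norm_mul, Complex.norm_real, norm_inv, norm_norm]
    field_simp
  · intro a ha b hb hab
    by_contra hne
    apply ht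
    simp only [Set.mem_iUnion]
    refine ⟨(a, b), Finset.mem_product.2 ⟨ha, hb⟩, hne, Or.inl ?_⟩
    rw [mul_assoc, mul_assoc, Complex.im_ofReal_mul, Complex.im_ofReal_mul] at hab
    have h2 : (z * a).im = (z * b).im := mul_left_cancel₀ (inv_ne_zero hn.ne') hab
    simp only [hz, Complex.mul_im, Complex.add_re, Complex.add_im, Complex.one_re, Complex.one_im,
      Complex.mul_re, Complex.ofReal_re, Complex.ofReal_im, Complex.I_re, Complex.I_im] at h2
    simp only [Complex.sub_im, Complex.sub_re]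
    linarith
  · intro a ha b hb hab
    by_contra hne
    apply ht
    simp only [Set.mem_iUnion]
    refine ⟨(a, b), Finset.mem_product.2 ⟨ha, hb⟩, hne, Or.inr ?_⟩
    have e : ∀ a : ℂ, Complex.I * (((‖z‖⁻¹ : ℝ) : ℂ) * z) * a =
        ((‖z‖⁻¹ : ℝ) : ℂ) * (Complex.I * z * a) := fun a => by ring
    rw [e, e, Complex.im_ofReal_mul, Complex.im_ofReal_mul] at hab
    have h2 : (Complex.I * z * a).im = (Complex.I * z * b).im :=
      mul_left_cancel₀ (inv_ne_zero hn.ne') hab
    simp only [hz, Complex.mul_im, Complex.add_re, Complex.add_im, Complex.one_re, Complex.one_im,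
      Complex.mul_re, Complex.ofReal_re, Complex.ofReal_im, Complex.I_re, Complex.I_im] at h2
    simp only [Complex.sub_im, Complex.sub_re]
    linarith

/-- one sweep: the balanced vertices with an edge which is steep for `ζ` -/
theorem one_sweep (G : FlatVertices.GeodesicNet) (hG : G.Proper) {I : ℝ}
    (hI : G.totalImbalance ≤ I) (ζ : ℂ) (hn : ‖ζ‖ = 1)
    (hgen : ∀ a ∈ G.V, ∀ b ∈ G.V, (ζ * a).im = (ζ * b).im → a = b) :
    (G.V.filter (fun v => ∃ w ∈ G.neighbors v, Ex ζ v w ^ 2 ≤ 1 / 2)).card ≤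
      (⌊192 * I ^ 2 * (I + 1) + G.unbalanced.card⌋₊ + 1) * (1 + Nb ⌊2 * I⌋₊) := by
  have hζ : ζ ≠ 0 := by rintro rfl; simp at hn
  have hI0 : 0 ≤ I := le_trans (Finset.sum_nonneg fun _ _ => norm_nonneg _) hI
  obtain ⟨hx, hy⟩ := T_le (hζ := hζ) (hgen := hgen) hn
  set C := cfg G ζ hζ hgen with hC
  set U : Finset {v : ℂ // v ∈ G.V} := Finset.univ.filter (fun v => G.imb v.1 ≠ 0) with hU
  have hUc : U.card = G.unbalanced.card := by
    have : G.unbalanced = U.map (Function.Embedding.subtype _) := by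
      ext v
      simp only [FlatVertices.GeodesicNet.unbalanced, Finset.mem_filter, hU, Finset.mem_map,
        Finset.mem_univ, true_and, Function.Embedding.subtype_apply, Subtype.exists,
        exists_and_right, exists_eq_right]
      constructor
      · rintro ⟨h1, h2⟩; exact ⟨h1, h2⟩
      · rintro ⟨h1, h2⟩; exact ⟨h1, h2⟩
    rw [this, Finset.card_map]
  have hkey : ∀ (v : {v : ℂ // v ∈ G.V}) (w : ℂ), w ∈ G.neighbors v.1 →
      ∃ u : {v : ℂ // v ∈ G.V}, u.1 = w ∧ (C.W v u ≠ 0 ∨ C.W u v ≠ 0) := by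
    intro v w hw
    obtain ⟨hwV, hwA⟩ := Finset.mem_filter.1 hw
    refine ⟨⟨w, hwV⟩, rfl, ?_⟩
    have hne : (ζ * v.1).im ≠ (ζ * w).im := fun h =>
      (G.edge_ends _ _ hwA).2.2 (hgen _ v.2 _ hwV h)
    rcases lt_or_gt_of_ne hne with hlt | hlt
    · exact Or.inl ((W_ne G ζ v ⟨w, hwV⟩).2 ⟨hwA, hlt⟩)
    · exact Or.inr ((W_ne G ζ ⟨w, hwV⟩ v).2 ⟨G.symm _ _ hwA, hlt⟩)
  have h := sweep_count (C := C) (unit hn) hI0 (hx.trans hI) (hy.trans hI) U
    (fun v hv => by
      have h0 : G.imb v.1 = 0 := by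
        by_contra h
        exact hv (Finset.mem_filter.2 ⟨Finset.mem_univ _, h⟩)
      exact ⟨by rw [hC, Dx_eq, h0]; simp, by rw [hC, Dy_eq, h0]; simp⟩)
    (fun v hv => by
      have h0 : G.imb v.1 = 0 := by
        by_contra h
        exact hv (Finset.mem_filter.2 ⟨Finset.mem_univ _, h⟩)
      have h1 := hG.2 v.1 v.2 h0
      rw [← card_eq (hζ := hζ) (hgen := hgen) v] at h1
      convert h1)
    (fun v => ∃ w ∈ G.neighbors v.1, Ex ζ v.1 w ^ 2 ≤ 1 / 2)
    (fun v hv => by
      obtain ⟨w, hw, hw2⟩ := hv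
      obtain ⟨u, rfl, hu | hu⟩ := hkey v w hw
      · exact Or.inl ⟨u, hu, by rw [hC, ux_out hu]; exact hw2⟩
      · exact Or.inr ⟨u, hu, by rw [hC, ux_in hu, neg_sq]; exact hw2⟩)
  rw [hUc] at h
  refine le_trans (le_of_eq ?_) h
  have : G.V.filter (fun v => ∃ w ∈ G.neighbors v, Ex ζ v w ^ 2 ≤ 1 / 2) =
      (Finset.univ.filter (fun v : {v : ℂ // v ∈ G.V} =>
        ∃ w ∈ G.neighbors v.1, Ex ζ v.1 w ^ 2 ≤ 1 / 2)).map (Function.Embedding.subtype _) := by
    ext v
    simp only [Finset.mem_filter, Finset.mem_map, Finset.mem_univ, true_and,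
      Function.Embedding.subtype_apply, Subtype.exists, exists_and_right, exists_eq_right]
    constructor
    · rintro ⟨h1, h2⟩; exact ⟨h1, h2⟩
    · rintro ⟨h1, h2⟩; exact ⟨h1, h2⟩
  rw [this, Finset.card_map]

/-- the bound -/
def bound (n : ℕ) (I : ℝ) : ℕ :=
  2 * ((⌊192 * I ^ 2 * (I + 1) + n⌋₊ + 1) * (1 + Nb ⌊2 * I⌋₊))

theorem bound_holds (G : FlatVertices.GeodesicNet) (hG : G.Proper) {I : ℝ}
    (hI : G.totalImbalance ≤ I) : G.balanced.card ≤ bound G.unbalanced.card I := by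
  obtain ⟨ζ, hn, hg1, hg2⟩ := exists_generic2 G.V
  have h1 := one_sweep G hG hI ζ hn hg1
  have h2 := one_sweep G hG hI (Complex.I * ζ) (by rw [norm_mul, Complex.norm_I, hn, one_mul]) hg2
  have hsub : G.balanced ⊆ (G.V.filter (fun v => ∃ w ∈ G.neighbors v, Ex ζ v w ^ 2 ≤ 1 / 2)) ∪
      (G.V.filter (fun v => ∃ w ∈ G.neighbors v, Ex (Complex.I * ζ) v w ^ 2 ≤ 1 / 2)) := by
    intro v hv
    obtain ⟨hvV, hv0⟩ := Finset.mem_filter.1 hv
    have h3 := hG.2 v hvV hv0
    obtain ⟨w, hw⟩ : (G.neighbors v).Nonempty := Finset.card_pos.1 (by omega)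
    obtain ⟨hwV, hwA⟩ := Finset.mem_filter.1 hw
    have hne : w - v ≠ 0 := sub_ne_zero.2 (G.edge_ends _ _ hwA).2.2.symm
    have hpos : 0 < ‖w - v‖ := norm_pos_iff.2 hne
    have hsum : Ex ζ v w ^ 2 + Ex (Complex.I * ζ) v w ^ 2 = 1 := by
      have h4 : ((ζ * w).re - (ζ * v).re) ^ 2 + ((ζ * w).im - (ζ * v).im) ^ 2 = ‖w - v‖ ^ 2 := by
        have : ‖ζ * (w - v)‖ ^ 2 = ‖w - v‖ ^ 2 := by rw [norm_mul, hn, one_mul]
        rw [← this, Complex.sq_norm, Complex.normSq_apply, mul_sub, Complex.sub_re, Complex.sub_im]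
        ring
      have h5 : ∀ z : ℂ, (Complex.I * ζ * z).re = -(ζ * z).im := by
        intro z
        rw [mul_assoc, Complex.I_mul_re]
      unfold Ex
      rw [h5, h5]
      have h6 : (‖w - v‖⁻¹ * ((ζ * w).re - (ζ * v).re)) ^ 2 +
          (‖w - v‖⁻¹ * (-(ζ * w).im - -(ζ * v).im)) ^ 2 =
          (‖w - v‖⁻¹) ^ 2 * (((ζ * w).re - (ζ * v).re) ^ 2 + ((ζ * w).im - (ζ * v).im) ^ 2) := by
        ring
      rw [h6, h4]
      field_simp
    rw [Finset.mem_union, Finset.mem_filter, Finset.mem_filter]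
    by_cases h7 : Ex ζ v w ^ 2 ≤ 1 / 2
    · exact Or.inl ⟨hvV, w, hw, h7⟩
    · exact Or.inr ⟨hvV, w, hw, by linarith⟩
  have h3 := (Finset.card_le_card hsub).trans (Finset.card_union_le _ _)
  unfold bound
  omega

theorem Nb_le (p : ℕ) : 1 + 2 * Nb p ≤ (7 * (p + 1)) ^ (4 * p) := by
  induction p with
  | zero => simp [Nb]
  | succ p ih =>
    have h1 : 1 + 2 * Nb (p + 1) ≤ (7 * (p + 1)) ^ 4 * (1 + 2 * Nb p) := by
      change 1 + 2 * ((540 * (p + 1) ^ 3 * (p + 2) + 1) * (1 + 2 * Nb p)) ≤ _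
      have h2 : 2 * (540 * (p + 1) ^ 3 * (p + 2) + 1) + 1 ≤ (7 * (p + 1)) ^ 4 := by
        have e : (7 * (p + 1)) ^ 4 = 2401 * ((p + 1) ^ 3 * (p + 1)) := by ring
        rw [e]
        have h3 : (p + 1) ^ 3 * (p + 2) ≤ 2 * ((p + 1) ^ 3 * (p + 1)) := by
          have : (p + 1) ^ 3 * (p + 2) ≤ (p + 1) ^ 3 * (2 * (p + 1)) :=
            Nat.mul_le_mul_left _ (by omega)
          linarith
        have h4 : 1 ≤ (p + 1) ^ 3 * (p + 1) := Nat.one_le_iff_ne_zero.2 (by positivity)
        nlinarith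
      calc 1 + 2 * ((540 * (p + 1) ^ 3 * (p + 2) + 1) * (1 + 2 * Nb p))
          ≤ (2 * (540 * (p + 1) ^ 3 * (p + 2) + 1) + 1) * (1 + 2 * Nb p) := by nlinarith
        _ ≤ _ := Nat.mul_le_mul_right _ h2
    calc 1 + 2 * Nb (p + 1) ≤ (7 * (p + 1)) ^ 4 * (1 + 2 * Nb p) := h1
      _ ≤ (7 * (p + 1)) ^ 4 * (7 * (p + 1)) ^ (4 * p) := Nat.mul_le_mul_left _ ih
      _ = (7 * (p + 1)) ^ (4 * (p + 1)) := by rw [← pow_add]; congr 1; ring
      _ ≤ (7 * (p + 1 + 1)) ^ (4 * (p + 1)) := Nat.pow_le_pow_left (by omega) _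

theorem bound_le (n : ℕ) (I : ℝ) (hI : 0 ≤ I) :
    (bound n I : ℝ) ≤ (n + 1) * (14 * (I + 1)) ^ (14 * (I + 1)) := by
  set p := ⌊2 * I⌋₊ with hp
  have hp2 : (p : ℝ) ≤ 2 * I := Nat.floor_le (by positivity)
  have hb1 : (1 : ℝ) ≤ 14 * (I + 1) := by linarith
  have h1 : ((1 + Nb p : ℕ) : ℝ) ≤ (14 * (I + 1)) ^ (8 * (I + 1)) := by
    have h2 : (1 + Nb p : ℕ) ≤ (7 * (p + 1)) ^ (4 * p) := le_trans (by omega) (Nb_le p)
    have h3 : ((1 + Nb p : ℕ) : ℝ) ≤ (7 * (p + 1)) ^ (4 * p) := by exact_mod_cast h2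
    refine h3.trans ?_
    have h4 : (7 * ((p : ℝ) + 1)) ^ (4 * p) ≤ (14 * (I + 1)) ^ (4 * p) :=
      pow_le_pow_left₀ (by positivity) (by linarith) _
    refine h4.trans ?_
    rw [← Real.rpow_natCast]
    refine Real.rpow_le_rpow_of_exponent_le hb1 ?_
    push_cast
    linarith
  have h2 : ((⌊192 * I ^ 2 * (I + 1) + n⌋₊ + 1 : ℕ) : ℝ) ≤ 193 * (I + 1) ^ 3 * (n + 1) := by
    push_cast
    have h3 : (⌊192 * I ^ 2 * (I + 1) + n⌋₊ : ℝ) ≤ 192 * I ^ 2 * (I + 1) + n :=
      Nat.floor_le (by positivity)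
    have h4 : I ^ 2 * (I + 1) ≤ (I + 1) ^ 3 := by nlinarith [mul_nonneg hI hI]
    have h5 : (1 : ℝ) ≤ (I + 1) ^ 3 := one_le_pow₀ (by linarith)
    have h6 : (0 : ℝ) ≤ n := Nat.cast_nonneg n
    nlinarith [mul_nonneg h6 (sub_nonneg.2 h5)]
  have h3 : 2 * (193 * (I + 1) ^ 3 * ((n : ℝ) + 1)) ≤ (n + 1) * (14 * (I + 1)) ^ (3 * (I + 1)) := by
    have h4 : (14 * (I + 1)) ^ 3 ≤ (14 * (I + 1)) ^ (3 * (I + 1)) := by
      rw [← Real.rpow_natCast]
      refine Real.rpow_le_rpow_of_exponent_le hb1 ?_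
      push_cast
      linarith
    have h5 : 2 * (193 * (I + 1) ^ 3) ≤ (14 * (I + 1)) ^ 3 := by
      have : (14 * (I + 1)) ^ 3 = 2744 * (I + 1) ^ 3 := by ring
      rw [this]
      have : 0 ≤ (I + 1) ^ 3 := by positivity
      linarith
    have h6 : (0 : ℝ) ≤ n := Nat.cast_nonneg n
    nlinarith [h5.trans h4]
  unfold bound
  push_cast
  rw [← hp]
  push_cast at h1 h2
  have h0 : (0 : ℝ) ≤ 1 + Nb p := by positivity
  calc 2 * (((⌊192 * I ^ 2 * (I + 1) + n⌋₊ : ℝ) + 1) * (1 + (Nb p : ℝ)))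
      ≤ 2 * ((193 * (I + 1) ^ 3 * (n + 1)) * (14 * (I + 1)) ^ (8 * (I + 1))) := by
        have := mul_le_mul h2 h1 h0 (by positivity)
        linarith
    _ = (2 * (193 * (I + 1) ^ 3 * (n + 1))) * (14 * (I + 1)) ^ (8 * (I + 1)) := by ring
    _ ≤ ((n + 1) * (14 * (I + 1)) ^ (3 * (I + 1))) * (14 * (I + 1)) ^ (8 * (I + 1)) :=
        mul_le_mul_of_nonneg_right h3 (by positivity)
    _ = (n + 1) * (14 * (I + 1)) ^ (11 * (I + 1)) := by
        rw [mul_assoc, ← Real.rpow_add (by linarith)]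
        congr 2; ring
    _ ≤ (n + 1) * (14 * (I + 1)) ^ (14 * (I + 1)) := by
        refine mul_le_mul_of_nonneg_left ?_ (by positivity)
        exact Real.rpow_le_rpow_of_exponent_le hb1 (by linarith)

/-- **Gromov's question**: there is a function `F` such that every geodesic net in the plane with
`n` unbalanced vertices and total imbalance at most `I` has at most `F n I` balanced vertices.
One can take `F n I ≤ (n + 1) * (c * (I + 1)) ^ (c * (I + 1))` with a constant `c`. -/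
theorem result : ∃ F : ℕ → ℝ → ℕ,
    (∀ (G : GeodesicNet) (n : ℕ) (I : ℝ), G.Proper → G.unbalanced.card = n →
      G.totalImbalance ≤ I → G.balanced.card ≤ F n I) ∧
    ∃ c : ℝ, ∀ (n : ℕ) (I : ℝ), 0 ≤ I → (F n I : ℝ) ≤ (n + 1) * (c * (I + 1)) ^ (c * (I + 1)) := by
  refine ⟨bound, ?_, 14, bound_le⟩
  intro G n I hG hn hI
  subst hn
  exact bound_holds G.old hG hI

end Pool.Agent.Results.MP_b48dd4_gt.GromovBound
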